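import Pool.Agent.H10.TT.Cyc
import Pool.Agent.H38.T1.Ec

/-!
A field of odd degree in the cyclotomic tower above two given ones (helper10, block T of T1).
-/

set_option autoImplicit false
set_option linter.style.haveILetI false
open scoped Classical

open NumberField

namespace H10TT

variable {p : ℕ} [hp : Fact p.Prime]

theorem common (hp2 : p ≠ 2) {j m s : ℕ} (hm : Odd m) (hpm : p - 1 = m * 2 ^ s) {K : Type}
    [Field K] [NumberField K] (hK : H5SW.IsR p K) (hd : Module.finrank ℚ K = p ^ j * m) {L : Type}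
    [Field L] [NumberField L] (hL : H5SW.IsR p L) (hLo : Odd (Module.finrank ℚ L)) :
    ∃ (L' : Type) (_ : Field L') (_ : NumberField L') (_ : Algebra K L') (_ : Algebra L L'),
      H5SW.IsR p L' ∧ Odd (Module.finrank L L') ∧ ∃ i, Module.finrank K L' = p ^ i := by
  have hP := hp.out
  have hpo : Odd p := hP.odd_of_ne_two hp2
  have hm0 : 0 < m := hm.pos
  obtain ⟨-, n1, ⟨i1⟩⟩ := hK
  obtain ⟨-, n0, ⟨i0⟩⟩ := hL
  obtain ⟨n, hn0, hn1, hnj⟩ : ∃ n, n0 ≤ n ∧ n1 ≤ n ∧ j ≤ n :=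
    ⟨n0 + n1 + j, by omega, by omega, by omega⟩
  obtain ⟨E, _, _, hEa, hEc, hEd, -, ⟨eE⟩⟩ := cyclo (p := p) hp2 n
  obtain ⟨L', _, _, hL', ⟨iL'⟩⟩ := exists_deg (F := E) (d := p ^ n * m) (by
    rw [hEd, hpm]
    exact ⟨2 ^ s, by ring⟩)
  obtain ⟨c1⟩ := H5SW.Ex3_cyc (p := p) hn0
  obtain ⟨c2⟩ := H5SW.Ex3_cyc (p := p) hn1
  have hLdv : Module.finrank ℚ L ∣ Module.finrank ℚ L' := by
    let φ : L →+* E := eE.symm.toRingHom.comp (c1.comp i0)
    letI : Algebra L E := φ.toAlgebra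
    have h1 := Module.finrank_mul_finrank ℚ L E
    have h2 : Module.finrank ℚ L ∣ 2 ^ s * (p ^ n * m) := by
      refine ⟨Module.finrank L E, ?_⟩
      rw [h1, hEd, hpm]
      ring
    rw [hL']
    exact (Nat.Coprime.pow_right s (Nat.coprime_two_right.2 hLo)).dvd_of_dvd_mul_left h2
  have hKdv : Module.finrank ℚ K ∣ Module.finrank ℚ L' := by
    rw [hd, hL']
    exact mul_dvd_mul_right (pow_dvd_pow p hnj) m
  obtain ⟨kL, -⟩ := lift_deg (F := E) (eE.symm.toRingHom.comp (c1.comp i0)) iL' hLdv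
  obtain ⟨kK, -⟩ := lift_deg (F := E) (eE.symm.toRingHom.comp (c2.comp i1)) iL' hKdv
  letI : Algebra L L' := kL.toAlgebra
  letI : Algebra K L' := kK.toAlgebra
  haveI hgL' : IsGalois ℚ L' := galois_sub iL'
  have hoL' : Odd (Module.finrank ℚ L') := by
    rw [hL']
    exact hpo.pow.mul hm
  refine ⟨L', inferInstance, inferInstance, inferInstance, inferInstance,
    ⟨H38T1.isTR hoL', n, ⟨eE.toRingHom.comp iL'⟩⟩, ?_, n - j, ?_⟩
  · have h1 := Module.finrank_mul_finrank ℚ L L'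
    rw [← h1] at hoL'
    exact (Nat.odd_mul.1 hoL').2
  · have h1 := Module.finrank_mul_finrank ℚ K L'
    rw [hd, hL'] at h1
    have h2 : p ^ n = p ^ j * p ^ (n - j) := by
      rw [← pow_add]
      congr 1
      omega
    have h3 : p ^ j * m * Module.finrank K L' = p ^ j * m * p ^ (n - j) := by
      rw [h1, h2]; ring
    exact Nat.eq_of_mul_eq_mul_left (Nat.mul_pos (pow_pos hP.pos _) hm0) h3

end H10TT
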