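import Pool.Agent.H5.SW.L3

/-!
Subfields of odd degree of the cyclotomic tower (helper10, block T of T1).
-/

set_option autoImplicit false
set_option linter.style.haveILetI false
open scoped Classical

open NumberField

namespace H10TT

section group

theorem cyc_le {G : Type} [Group G] [Finite G] [IsCyclic G] (H1 H2 : Subgroup G)
    (h : Nat.card H1 ∣ Nat.card H2) : H1 ≤ H2 := by
  haveI : Fintype G := Fintype.ofFinite G
  intro x hx
  have hx1 : x ^ (Nat.card H1) = 1 := by
    have h0 := pow_card_eq_one' (G := H1) (x := ⟨x, hx⟩)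
    have h00 := congrArg Subtype.val h0
    rw [SubmonoidClass.coe_pow, OneMemClass.coe_one] at h00
    exact h00
  have hx2 : x ^ (Nat.card H2) = 1 := by
    obtain ⟨c, hc⟩ := h
    rw [hc, pow_mul, hx1, one_pow]
  by_contra hxn
  have hpos : 0 < Nat.card H2 := Nat.card_pos
  have hle := IsCyclic.card_pow_eq_one_le (α := G) hpos
  have hsub : insert x (Finset.univ.filter (fun y : G => y ∈ H2)) ⊆
      Finset.univ.filter (fun a : G => a ^ (Nat.card H2) = 1) := by
    intro y hy
    rw [Finset.mem_insert] at hy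
    simp only [Finset.mem_filter, Finset.mem_univ, true_and]
    rcases hy with rfl | hy
    · exact hx2
    · simp only [Finset.mem_filter, Finset.mem_univ, true_and] at hy
      have h0 := pow_card_eq_one' (G := H2) (x := ⟨y, hy⟩)
      have h00 := congrArg Subtype.val h0
      rw [SubmonoidClass.coe_pow, OneMemClass.coe_one] at h00
      exact h00
  have hcard := Finset.card_le_card hsub
  rw [Finset.card_insert_of_notMem (by simp [hxn])] at hcard
  have hc2 : (Finset.univ.filter (fun y : G => y ∈ H2)).card = Nat.card H2 := by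
    rw [Nat.card_eq_fintype_card, Fintype.card_subtype]
  omega

theorem cyc_sub {G : Type} [Group G] [Finite G] [IsCyclic G] {d : ℕ} (h : d ∣ Nat.card G) :
    ∃ H : Subgroup G, Nat.card H * d = Nat.card G := by
  obtain ⟨g, hg⟩ := IsCyclic.exists_ofOrder_eq_natCard (α := G)
  have h0 : 0 < Nat.card G := Nat.card_pos
  have hd : d ≠ 0 := by
    rintro rfl
    rw [zero_dvd_iff] at h
    omega
  refine ⟨Subgroup.zpowers (g ^ d), ?_⟩
  rw [Nat.card_zpowers, orderOf_pow' g hd, hg, Nat.gcd_eq_right h, Nat.div_mul_cancel h]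

end group

section fields

variable {F : Type} [Field F] [NumberField F]

/-- Inside a cyclic field the subfields are ordered by their degrees. -/
theorem lift_deg [IsGalois ℚ F] [IsCyclic (F ≃ₐ[ℚ] F)] {A B : Type} [Field A] [NumberField A]
    [Field B] [NumberField B] (i : A →+* F) (j : B →+* F)
    (h : Module.finrank ℚ A ∣ Module.finrank ℚ B) : ∃ k : A →+* B, ∀ x, j (k x) = i x := by
  have c1 := H5SW.L3aux.card_HH i
  have c2 := H5SW.L3aux.card_HH j
  have hA : 0 < Module.finrank ℚ A := Module.finrank_pos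
  have hB : 0 < Module.finrank ℚ B := Module.finrank_pos
  have hle : H5SW.L3aux.HH j ≤ H5SW.L3aux.HH i := by
    apply cyc_le
    obtain ⟨c, hc⟩ := h
    rw [hc, ← c1] at c2
    have h1 : Nat.card (H5SW.L3aux.HH j) * c * Module.finrank ℚ A =
        Nat.card (H5SW.L3aux.HH i) * Module.finrank ℚ A := by
      rw [← c2]; ring
    exact ⟨c, (Nat.eq_of_mul_eq_mul_right hA h1).symm⟩
  let I : A →ₐ[ℚ] F := i.toRatAlgHom
  let J : B →ₐ[ℚ] F := j.toRatAlgHom
  have hIJ : I.fieldRange ≤ J.fieldRange := by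
    rintro x ⟨a, rfl⟩
    rw [← IsGalois.fixedField_fixingSubgroup J.fieldRange]
    rintro ⟨g, hg⟩
    have h1 : g ∈ H5SW.L3aux.HH j := by
      intro y
      exact (IntermediateField.mem_fixingSubgroup_iff _ _).1 hg (J y) ⟨y, rfl⟩
    exact hle h1 a
  let k : A →ₐ[ℚ] B := (AlgEquiv.ofInjectiveField J).symm.toAlgHom.comp
    ((IntermediateField.inclusion hIJ).comp (AlgEquiv.ofInjectiveField I).toAlgHom)
  refine ⟨k.toRingHom, fun x => ?_⟩
  have h1 : (AlgEquiv.ofInjectiveField J) (k x) =
      IntermediateField.inclusion hIJ (AlgEquiv.ofInjectiveField I x) :=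
    (AlgEquiv.ofInjectiveField J).apply_symm_apply _
  exact congrArg (fun t : J.fieldRange => (t : F)) h1

theorem exists_deg [IsGalois ℚ F] [IsCyclic (F ≃ₐ[ℚ] F)] {d : ℕ} (h : d ∣ Module.finrank ℚ F) :
    ∃ (A : Type) (_ : Field A) (_ : NumberField A), Module.finrank ℚ A = d ∧
      Nonempty (A →+* F) := by
  have hc : Nat.card (F ≃ₐ[ℚ] F) = Module.finrank ℚ F := IsGalois.card_aut_eq_finrank ℚ F
  rw [← hc] at h
  obtain ⟨H, hH⟩ := cyc_sub h
  refine ⟨IntermediateField.fixedField H, inferInstance, inferInstance, ?_,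
    ⟨algebraMap (IntermediateField.fixedField H) F⟩⟩
  have h1 : Module.finrank (IntermediateField.fixedField H) F = Nat.card H :=
    IntermediateField.finrank_fixedField_eq_card H
  have h2 := Module.finrank_mul_finrank ℚ (IntermediateField.fixedField H) F
  rw [h1, ← hc, ← hH, mul_comm] at h2
  exact Nat.eq_of_mul_eq_mul_left Nat.card_pos h2

/-- A subfield of an abelian field is Galois. -/
theorem galois_sub [IsAbelianGalois ℚ F] {A : Type} [Field A] [NumberField A] (i : A →+* F) :
    IsGalois ℚ A := by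
  letI : Algebra A F := i.toAlgebra
  haveI : IsAbelianGalois ℚ A := IsAbelianGalois.tower_bot ℚ A F
  infer_instance

end fields

section cyclotomic

variable {p : ℕ} [hp : Fact p.Prime]

/-- The cyclotomic field as a cyclic number field. -/
theorem cyclo (hp2 : p ≠ 2) (n : ℕ) : ∃ (F : Type) (_ : Field F) (_ : NumberField F),
    IsAbelianGalois ℚ F ∧ IsCyclic (F ≃ₐ[ℚ] F) ∧ Module.finrank ℚ F = p ^ n * (p - 1) ∧
    IsCyclotomicExtension {p ^ (n + 1)} ℚ F ∧ Nonempty (F ≃+* CyclotomicField (p ^ (n + 1)) ℚ) := by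
  haveI : NeZero (p ^ (n + 1)) := ⟨pow_ne_zero _ hp.out.ne_zero⟩
  haveI : IsCyclotomicExtension {p ^ (n + 1)} ℚ (CyclotomicField (p ^ (n + 1)) ℚ) :=
    CyclotomicField.isCyclotomicExtension (p ^ (n + 1)) ℚ
  refine ⟨CyclotomicField (p ^ (n + 1)) ℚ, inferInstance, inferInstance,
    IsCyclotomicExtension.isAbelianGalois {p ^ (n + 1)} ℚ _, ?_, ?_, inferInstance,
    ⟨RingEquiv.refl _⟩⟩
  · haveI : IsCyclic (ZMod (p ^ (n + 1)))ˣ :=
      ZMod.isCyclic_units_of_prime_pow p hp.out hp2 (n + 1)
    exact isCyclic_of_surjective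
      (IsCyclotomicExtension.Rat.galEquivZMod (p ^ (n + 1)) (CyclotomicField (p ^ (n + 1)) ℚ)).symm
      (IsCyclotomicExtension.Rat.galEquivZMod (p ^ (n + 1))
        (CyclotomicField (p ^ (n + 1)) ℚ)).symm.surjective
  · have h1 : Module.finrank ℚ (CyclotomicField (p ^ (n + 1)) ℚ) = (p ^ (n + 1)).totient :=
      IsCyclotomicExtension.finrank (CyclotomicField (p ^ (n + 1)) ℚ)
        (Polynomial.cyclotomic.irreducible_rat (pow_pos hp.out.pos _))
    rw [h1, Nat.totient_prime_pow_succ hp.out]

end cyclotomic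

end H10TT
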