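import Pool.Agent.H10.TT.Cyc
import Pool.Agent.H38.T1.Df

/-!
Complete splitting in the cyclotomic tower (helper10, block T of T1).
-/

set_option autoImplicit false
set_option linter.style.haveILetI false
open scoped Classical Pointwise

open NumberField IsDedekindDomain H38T1

namespace H10TT

lemma liesOver_span {K : Type} [Field K] [NumberField K] {l : ℕ} (hl : l.Prime) (P : Ideal (𝓞 K))
    [hP : P.IsPrime] (h : (l : 𝓞 K) ∈ P) : P.LiesOver (Ideal.span {(l : ℤ)}) := by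
  constructor
  have h1 : Prime (l : ℤ) := Nat.prime_iff_prime_int.1 hl
  have h2 : (Ideal.span {(l : ℤ)}).IsMaximal :=
    PrincipalIdealRing.isMaximal_of_irreducible h1.irreducible
  refine h2.eq_of_le (Ideal.comap_ne_top _ hP.ne_top) ?_
  rw [Ideal.span_singleton_le_iff_mem, Ideal.mem_comap]
  simpa using h

theorem spl_up {p n : ℕ} [hp : Fact p.Prime] {K K' : Type} [Field K] [NumberField K] [Field K']
    [NumberField K'] [Algebra K K'] [IsGalois ℚ K] [IsGalois ℚ K']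
    (i : K' →+* CyclotomicField (p ^ (n + 1)) ℚ) (hd : Module.finrank K K' = p) {l : ℕ}
    (hl : l.Prime) (hlp : l ≠ p) (hK : Spl K l) (hdvd : p ^ (n + 1) ∣ l ^ (p - 1) - 1) :
    Spl K' l := by
  refine ⟨hl, hK.2.1, fun v hv => ?_⟩
  haveI hlF : Fact l.Prime := ⟨hl⟩
  haveI : NeZero (p ^ (n + 1)) := ⟨pow_ne_zero _ hp.out.ne_zero⟩
  haveI : IsCyclotomicExtension {p ^ (n + 1)} ℚ (CyclotomicField (p ^ (n + 1)) ℚ) :=
    CyclotomicField.isCyclotomicExtension (p ^ (n + 1)) ℚ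
  letI : Algebra K' (CyclotomicField (p ^ (n + 1)) ℚ) := i.toAlgebra
  haveI : IsGalois K K' := IsGalois.tower_top_of_isGalois ℚ K K'
  -- the place below
  let u : HeightOneSpectrum (𝓞 K) :=
    ⟨v.asIdeal.under (𝓞 K), inferInstance, Ideal.IsIntegral.comap_ne_bot _ v.ne_bot⟩
  have hu : (l : 𝓞 K) ∈ u.asIdeal := by
    change algebraMap (𝓞 K) (𝓞 K') (l : 𝓞 K) ∈ v.asIdeal
    rw [map_natCast]
    exact hv
  haveI hvu : v.asIdeal.LiesOver u.asIdeal := ⟨rfl⟩
  haveI hvl : v.asIdeal.LiesOver (Ideal.span {(l : ℤ)}) := liesOver_span hl _ hv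
  haveI hul : u.asIdeal.LiesOver (Ideal.span {(l : ℤ)}) := liesOver_span hl _ hu
  -- the prime above
  have hker : RingHom.ker (algebraMap (𝓞 K') (𝓞 (CyclotomicField (p ^ (n + 1)) ℚ))) ≤ v.asIdeal := by
    rw [(RingHom.injective_iff_ker_eq_bot _).1 (FaithfulSMul.algebraMap_injective (𝓞 K') _)]
    exact bot_le
  obtain ⟨P, hP, hPc⟩ := Ideal.exists_ideal_over_prime_of_isIntegral_of_isDomain
    (S := 𝓞 (CyclotomicField (p ^ (n + 1)) ℚ)) v.asIdeal hker
  haveI := hP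
  haveI hPv : P.LiesOver v.asIdeal := ⟨hPc.symm⟩
  have hPl0 : (l : 𝓞 (CyclotomicField (p ^ (n + 1)) ℚ)) ∈ P := by
    rw [← hPc, Ideal.mem_comap, map_natCast] at hv
    exact hv
  haveI hPl : P.LiesOver (Ideal.span {(l : ℤ)}) := liesOver_span hl _ hPl0
  have hnd : ¬ l ∣ p ^ (n + 1) := by
    intro h
    exact hlp ((Nat.prime_dvd_prime_iff_eq hl hp.out).1 (hl.dvd_of_dvd_pow h))
  have f1 := IsCyclotomicExtension.Rat.inertiaDeg_eq_of_not_dvd l
    (CyclotomicField (p ^ (n + 1)) ℚ) P hnd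
  have e1 := IsCyclotomicExtension.Rat.ramificationIdx_eq_of_not_dvd l
    (CyclotomicField (p ^ (n + 1)) ℚ) P hnd
  -- ramification
  have e2 : v.asIdeal.ramificationIdx ℤ = 1 := by
    have h := Ideal.ramificationIdx_below_dvd (R := ℤ) v.asIdeal P
    rw [e1] at h
    exact Nat.dvd_one.1 h
  -- inertia
  have f2 : v.asIdeal.inertiaDeg ℤ ∣ p - 1 := by
    refine (Ideal.inertiaDeg_below_dvd (R := ℤ) v.asIdeal P).trans ?_
    rw [f1]
    apply orderOf_dvd_of_pow_eq_one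
    have h1 : ((l ^ (p - 1) - 1 : ℕ) : ZMod (p ^ (n + 1))) = 0 :=
      (ZMod.natCast_eq_zero_iff _ _).2 hdvd
    rw [Nat.cast_sub (Nat.one_le_pow _ _ hl.pos), Nat.cast_pow, Nat.cast_one, sub_eq_zero] at h1
    exact h1
  have f3 : v.asIdeal.inertiaDeg ℤ ∣ p := by
    have h1 := Ideal.inertiaDeg_tower (R := ℤ) u.asIdeal v.asIdeal
    have h2 : u.asIdeal.inertiaDeg ℤ = 1 := by
      have h3 := Ideal.pow_inertiaDeg l u.asIdeal
      rw [(hK.2.2 u hu).1] at h3
      exact Nat.pow_right_injective hl.two_le (by simpa using h3)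
    rw [h2, one_mul] at h1
    rw [h1]
    have h4 := Ideal.ncard_primesOver_mul_ramificationIdxIn_mul_inertiaDegIn u.asIdeal (𝓞 K')
      (K' ≃ₐ[K] K')
    rw [IsGalois.card_aut_eq_finrank, hd,
      Ideal.inertiaDegIn_eq_inertiaDeg u.asIdeal v.asIdeal (K' ≃ₐ[K] K')] at h4
    rw [← h4]
    exact Dvd.dvd.mul_left (Dvd.intro_left _ rfl) _
  have f4 : v.asIdeal.inertiaDeg ℤ = 1 := by
    have h1 : v.asIdeal.inertiaDeg ℤ ∣ Nat.gcd p (p - 1) := Nat.dvd_gcd f3 f2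
    have h2 : Nat.gcd p (p - 1) = 1 := by
      have h3 : p = (p - 1) + 1 := by have := hp.out.two_le; omega
      have h4 : Nat.Coprime ((p - 1) + 1) (p - 1) := by simp
      rwa [← h3] at h4
    rw [h2] at h1
    exact Nat.dvd_one.1 h1
  refine ⟨?_, fun g hg => ?_⟩
  · rw [← Ideal.pow_inertiaDeg l v.asIdeal, f4, pow_one]
  · have hc : Nat.card (MulAction.stabilizer (K' ≃ₐ[ℚ] K') v.asIdeal) = 1 := by
      rw [Ideal.card_stabilizer_eq (Ideal.span {(l : ℤ)}) v.asIdeal,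
        Ideal.ramificationIdxIn_eq_ramificationIdx (Ideal.span {(l : ℤ)}) v.asIdeal
          (K' ≃ₐ[ℚ] K'),
        Ideal.inertiaDegIn_eq_inertiaDeg (Ideal.span {(l : ℤ)}) v.asIdeal (K' ≃ₐ[ℚ] K'),
        e2, f4]
    have hmem : g ∈ MulAction.stabilizer (K' ≃ₐ[ℚ] K') v.asIdeal := by
      rw [MulAction.mem_stabilizer_iff]
      ext x
      rw [Ideal.mem_pointwise_smul_iff_inv_smul_mem]
      have h1 : x ∈ (mv g v).asIdeal ↔ gO g⁻¹ x ∈ v.asIdeal := mem_mv
      have h2 : mv g v = v := hg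
      rw [h2] at h1
      rw [h1]
      rfl
    have := Nat.card_eq_one_iff_unique.1 hc
    have h3 := this.1.elim ⟨g, hmem⟩ 1
    exact congrArg Subtype.val h3

end H10TT
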