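import Pool.Agent.H10.TT.Cyc
import Pool.Agent.H38.T1.Ec

/-!
The fields of odd degree in the cyclotomic tower (helper10, block T of T1).
-/

set_option autoImplicit false
set_option linter.style.haveILetI false
open scoped Classical

open NumberField

namespace H10TT

variable {p : ℕ} [hp : Fact p.Prime]

/-- The fields: `K` of degree `p ^ j m`, `K'` of degree `p ^ (j + 1) m`, where `m` is the odd part of
`p - 1`; every field of odd degree in the tower embeds in a larger one which contains `K`. -/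
theorem tower_fields (hp2 : p ≠ 2) (j : ℕ) : ∃ (K K' : Type) (_ : Field K) (_ : NumberField K)
    (_ : Field K') (_ : NumberField K') (_ : Algebra K K'), IsGalois ℚ K ∧ IsGalois ℚ K' ∧
    Odd (Module.finrank ℚ K) ∧ Module.finrank K K' = p ∧ p ^ j ∣ Module.finrank ℚ K ∧
    Nonempty (K' →+* CyclotomicField (p ^ (j + 1 + 1)) ℚ) ∧
    ∀ (L : Type) [Field L] [NumberField L], H5SW.IsR p L → Odd (Module.finrank ℚ L) →
      ∃ (L' : Type) (_ : Field L') (_ : NumberField L') (_ : Algebra K L') (_ : Algebra L L'),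
        H5SW.IsR p L' ∧ Odd (Module.finrank L L') ∧ ∃ i, Module.finrank K L' = p ^ i := by
  have hP := hp.out
  have hpo : Odd p := hP.odd_of_ne_two hp2
  have hp1 : p - 1 ≠ 0 := by have := hP.two_le; omega
  obtain ⟨s, m, hm, hpm⟩ := Nat.exists_eq_two_pow_mul_odd hp1
  have hm0 : 0 < m := hm.pos
  have hdeg : ∀ n : ℕ, p ^ n * m ∣ p ^ n * (p - 1) := fun n =>
    mul_dvd_mul_left _ (by rw [hpm]; exact Dvd.intro_left _ rfl)
  have hoddn : ∀ n : ℕ, Odd (p ^ n * m) := fun n => hpo.pow.mul hm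
  obtain ⟨F, _, _, hFa, hFc, hFd, -, ⟨eF⟩⟩ := cyclo (p := p) hp2 j
  obtain ⟨F', _, _, hFa', hFc', hFd', -, ⟨eF'⟩⟩ := cyclo (p := p) hp2 (j + 1)
  obtain ⟨K, _, _, hK, ⟨iK⟩⟩ := exists_deg (F := F) (d := p ^ j * m) (by rw [hFd]; exact hdeg j)
  obtain ⟨K', _, _, hK', ⟨iK'⟩⟩ := exists_deg (F := F') (d := p ^ (j + 1) * m)
    (by rw [hFd']; exact hdeg (j + 1))
  obtain ⟨c⟩ := H5SW.Ex3_cyc (p := p) (by omega : j ≤ j + 1)
  have hdv : Module.finrank ℚ K ∣ Module.finrank ℚ K' := by
    rw [hK, hK', pow_succ]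
    exact ⟨p, by ring⟩
  obtain ⟨k, -⟩ := lift_deg (F := F') (eF'.symm.toRingHom.comp (c.comp (eF.toRingHom.comp iK))) iK' hdv
  letI : Algebra K K' := k.toAlgebra
  have hgK : IsGalois ℚ K := galois_sub iK
  have hgK' : IsGalois ℚ K' := galois_sub iK'
  refine ⟨K, K', inferInstance, inferInstance, inferInstance, inferInstance, inferInstance,
    hgK, hgK', ?_, ?_, ?_, ⟨eF'.toRingHom.comp iK'⟩, ?_⟩
  · rw [hK]
    exact hoddn j
  · have h1 := Module.finrank_mul_finrank ℚ K K'
    rw [hK, hK'] at h1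
    have h2 : p ^ j * m * Module.finrank K K' = p ^ j * m * p := by
      rw [h1, pow_succ]; ring
    exact Nat.eq_of_mul_eq_mul_left (Nat.mul_pos (pow_pos hP.pos _) hm0) h2
  · rw [hK]
    exact Dvd.intro _ rfl
  · intro L _ _ hL hLo
    obtain ⟨-, n0, ⟨i0⟩⟩ := hL
    set n := max j n0 with hn
    obtain ⟨E, _, _, hEa, hEc, hEd, -, ⟨eE⟩⟩ := cyclo (p := p) hp2 n
    obtain ⟨L', _, _, hL', ⟨iL'⟩⟩ := exists_deg (F := E) (d := p ^ n * m)
      (by rw [hEd]; exact hdeg n)
    obtain ⟨c1⟩ := H5SW.Ex3_cyc (p := p) (le_max_right j n0)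
    obtain ⟨c2⟩ := H5SW.Ex3_cyc (p := p) (le_max_left j n0)
    have hLdv : Module.finrank ℚ L ∣ Module.finrank ℚ L' := by
      let φ : L →+* E := eE.symm.toRingHom.comp (c1.comp i0)
      letI : Algebra L E := φ.toAlgebra
      have h1 := Module.finrank_mul_finrank ℚ L E
      have h2 : Module.finrank ℚ L ∣ 2 ^ s * (p ^ n * m) := by
        refine ⟨Module.finrank L E, ?_⟩
        rw [h1, hEd, hpm]
        ring
      rw [hL']
      exact (Nat.Coprime.pow_right s (Nat.coprime_two_right.2 hLo)).dvd_of_dvd_mul_left h2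
    have hKdv : Module.finrank ℚ K ∣ Module.finrank ℚ L' := by
      rw [hK, hL']
      exact mul_dvd_mul_right (pow_dvd_pow p (le_max_left j n0)) m
    obtain ⟨kL, -⟩ := lift_deg (F := E) (eE.symm.toRingHom.comp (c1.comp i0)) iL' hLdv
    obtain ⟨kK, -⟩ := lift_deg (F := E)
      (eE.symm.toRingHom.comp (c2.comp (eF.toRingHom.comp iK))) iL' hKdv
    letI : Algebra L L' := kL.toAlgebra
    letI : Algebra K L' := kK.toAlgebra
    haveI hgL' : IsGalois ℚ L' := galois_sub iL'
    have hoL' : Odd (Module.finrank ℚ L') := by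
      rw [hL']
      exact hoddn n
    refine ⟨L', inferInstance, inferInstance, inferInstance, inferInstance,
      ⟨H38T1.isTR hoL', n, ⟨eE.toRingHom.comp iL'⟩⟩, ?_, n - j, ?_⟩
    · have h1 := Module.finrank_mul_finrank ℚ L L'
      rw [← h1] at hoL'
      exact (Nat.odd_mul.1 hoL').2
    · have h1 := Module.finrank_mul_finrank ℚ K L'
      rw [hK, hL'] at h1
      have h2 : p ^ n = p ^ j * p ^ (n - j) := by
        rw [← pow_add]
        congr 1
        have := le_max_left j n0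
        omega
      have h3 : p ^ j * m * Module.finrank K L' = p ^ j * m * p ^ (n - j) := by
        rw [h1, h2]; ring
      exact Nat.eq_of_mul_eq_mul_left (Nat.mul_pos (pow_pos hP.pos _) hm0) h3

end H10TT
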