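import Pool.Agent.H73.IS.KTow
import Pool.Agent.H10.Cong
import Pool.Agent.H38.T1.Tw

/-!
The conclusion goes up one layer (helper10, block T of T1).
-/

set_option autoImplicit false
set_option linter.style.haveILetI false
open scoped Classical

open WeierstrassCurve NumberField IsDedekindDomain H38T1 H73IS Pool.Agent.H10

namespace H10TT

variable {K L : Type} [Field K] [NumberField K] [Field L] [NumberField L] [Algebra K L]
  [IsGalois K L]

theorem triv_up (hodd : Odd (Module.finrank K L)) {a b : K} (hb : b ≠ 0)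
    (hd : a ^ 2 - 4 * b ≠ 0) (H : NewTrivQ K L (algebraMap K L a) (algebraMap K L b))
    (H' : NewTrivQ K L (algebraMap K L (-2 * a)) (algebraMap K L (a ^ 2 - 4 * b)))
    (h : Triv K a b) : Triv L (algebraMap K L a) (algebraMap K L b) := by
  let V : WeierstrassCurve K := ⟨0, a, 0, b, 0⟩
  let V' : WeierstrassCurve L := ⟨0, algebraMap K L a, 0, algebraMap K L b, 0⟩
  have hT : IsTw V a b := ⟨rfl, rfl, rfl, rfl, rfl, hb, hd, two_ne_zero⟩
  have hV : V.map (algebraMap K L) = V' := by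
    change (⟨algebraMap K L 0, algebraMap K L a, algebraMap K L 0, algebraMap K L b,
      algebraMap K L 0⟩ : WeierstrassCurve L) = _
    rw [map_zero]
  obtain ⟨h1, h2⟩ := h
  refine ⟨?_, ?_⟩
  · change Sha2Trivial L V'
    intro g hg hl hm
    let G : ShaZ L V' := ⟨g, hg, hl⟩
    obtain ⟨x, hx, hxg⟩ := (bijOn hodd hT hV H H').2.2 ((mk_mem_iff' G).mpr hm)
    obtain ⟨f, rfl⟩ := Sha.mk_surjective x
    have h3 : IsCobound K V f.1 := h1 f.1 f.2.1 f.2.2 ((mk_mem_iff' f).mp hx)
    have h4 : Sha.mk f = 0 := (Sha.mk_eq_zero f).mpr h3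
    rw [h4, map_zero] at hxg
    exact (Sha.mk_eq_zero G).mp hxg.symm
  · change Finite V'.toAffine.Point
    obtain ⟨m, hm, hP⟩ := mw_odd hodd hT hV H H'
    haveI : Finite V.toAffine.Point := h2
    have := (hT.up hV).isElliptic
    have hc : Nat.card V.toAffine.Point ≠ 0 := Nat.card_pos.ne'
    refine finite_of_torsion (m := Nat.card V.toAffine.Point * m)
      (mul_ne_zero hc (by rintro rfl; simp at hm)) (fun P => ?_)
    obtain ⟨Q, hQ'⟩ := hP P
    rw [mul_nsmul', hQ', ← map_nsmul, card_nsmul_eq_zero', map_zero]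

/-- Both curves. -/
theorem both_up (hodd : Odd (Module.finrank K L)) {a b : ℤ} (hb : b ≠ 0)
    (hd : a ^ 2 - 4 * b ≠ 0) (H : NewTrivQ K L (a : L) (b : L))
    (H' : NewTrivQ K L (-2 * (a : L)) ((a : L) ^ 2 - 4 * (b : L)))
    (h : Triv K ((a : ℤ) : K) ((b : ℤ) : K))
    (h' : Triv K ((-2 * a : ℤ) : K) ((a ^ 2 - 4 * b : ℤ) : K)) :
    Triv L ((a : ℤ) : L) ((b : ℤ) : L) ∧
      Triv L ((-2 * a : ℤ) : L) ((a ^ 2 - 4 * b : ℤ) : L) := by
  have hbK : ((b : ℤ) : K) ≠ 0 := Int.cast_ne_zero.2 hb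
  have hdK : ((a ^ 2 - 4 * b : ℤ) : K) ≠ 0 := Int.cast_ne_zero.2 hd
  have e1 : ((a ^ 2 - 4 * b : ℤ) : K) = (a : K) ^ 2 - 4 * (b : K) := by push_cast; ring
  have e2 : algebraMap K L (-2 * (a : K)) = -2 * (a : L) := by
    rw [map_mul, map_neg, map_ofNat, map_intCast]
  have e3 : algebraMap K L ((a : K) ^ 2 - 4 * (b : K)) = (a : L) ^ 2 - 4 * (b : L) := by
    rw [map_sub, map_pow, map_mul, map_ofNat, map_intCast, map_intCast]
  have e4 : ((-2 * a : ℤ) : K) = -2 * (a : K) := by push_cast; ring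
  constructor
  · have := triv_up (K := K) (L := L) hodd (a := (a : K)) (b := (b : K)) hbK
      (by rw [← e1]; exact hdK) (by rwa [map_intCast, map_intCast]) (by rwa [e2, e3]) h
    rwa [map_intCast, map_intCast] at this
  · have := triv_up (K := K) (L := L) hodd (a := ((-2 * a : ℤ) : K))
      (b := ((a ^ 2 - 4 * b : ℤ) : K)) hdK ?_ ?_ ?_ h'
    · rwa [map_intCast, map_intCast] at this
    · rw [e4, e1]
      have e5 : (-2 * (a : K)) ^ 2 - 4 * ((a : K) ^ 2 - 4 * (b : K)) = 16 * (b : K) := by ring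
      rw [e5]
      exact mul_ne_zero (by norm_num) hbK
    · rw [e4, e1, e2, e3]
      exact H'
    · have e6 : algebraMap K L (-2 * ((-2 * a : ℤ) : K)) = 4 * (a : L) := by
        rw [map_mul, map_neg, map_ofNat, map_intCast]
        push_cast
        ring
      have e7 : algebraMap K L (((-2 * a : ℤ) : K) ^ 2 - 4 * ((a ^ 2 - 4 * b : ℤ) : K)) =
          16 * (b : L) := by
        rw [map_sub, map_pow, map_mul, map_ofNat, map_intCast, map_intCast]
        push_cast
        ring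
      rw [e6, e7]
      exact H.scale

end H10TT
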